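import Mathlib
import Pool.Agent.Q74.Per.Sets

/-!
# Limit superior of a sequence of `1/n`-periodic functions

There are measurable sets `F n`, `n ≥ 1`, where `F n` has period `1/n`, such that almost every point
of `[0, 1/4)` lies in only finitely many of them, while the set of the points which lie in
infinitely many `F n` has positive measure. So the upper limit of the indicator functions is not
constant almost everywhere.

One block. Let `V` be a vector space over the field of two elements, `|V| = 2 ^ (k + 1)`, and let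
`M v`, `v ∈ V`, be integers divisible by different powers of two, with `M v ≡ 1` modulo a large
prime `q v` and `M u ≡ 0` modulo `q v` for `u ≠ v`. The first binary digits of the numbers `M v x`
are independent. The set `Z` of the `x` for which they form a word of the Hamming code has measure
`1 / |V|`. Let `E v` be the set of the `x` such that these digits form a word of the code once
`M v x` is replaced by `(M v - 1) x`, and the second digit of `(M v - 1) x` vanishes. It has period
`1 / q v` and measure `1 / (2 |V|)`, for `0 ≤ x < 1/4` it is contained in `Z`, and for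
`1/2 ≤ x < 3/4` the sets `E v` are disjoint.
-/

set_option autoImplicit false

namespace Pool.Agent.Results.MP_942486_an.LimsupNotConstant

open Pool.Agent.Q74.Per MeasureTheory Set Filter

/-- the vector space of the block `k` -/
abbrev Vk (k : ℕ) : Type := Fin (k + 1) → ZMod 2

theorem card_Vk (k : ℕ) : Fintype.card (Vk k) = 2 ^ (k + 1) := by
  rw [Fintype.card_fun, ZMod.card, Fintype.card_fin]

/-- the sets -/
def F (n : ℕ) : Set ℝ := {x | ∃ k : ℕ, ∃ v : Vk k, v ≠ 0 ∧ per k v = n ∧ x ∈ EE k v}

theorem measurableSet_F (n : ℕ) : MeasurableSet (F n) := by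
  have h : F n = ⋃ k : ℕ, ⋃ v ∈ (Finset.univ.filter fun v : Vk k => v ≠ 0 ∧ per k v = n),
      EE k v := by
    ext x
    simp only [F, mem_ofPred_eq, mem_iUnion, Finset.mem_filter, Finset.mem_univ, true_and,
      exists_prop, and_assoc]
  rw [h]
  exact MeasurableSet.iUnion fun k => Finset.measurableSet_biUnion _ fun v _ =>
    measurableSet_EE k v

theorem F_periodic (n : ℕ) (x : ℝ) : x + 1 / n ∈ F n ↔ x ∈ F n := by
  constructor
  · rintro ⟨k, v, h0, rfl, h⟩
    exact ⟨k, v, h0, rfl, (EE_periodic k v x).1 h⟩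
  · rintro ⟨k, v, h0, rfl, h⟩
    exact ⟨k, v, h0, rfl, (EE_periodic k v x).2 h⟩

theorem frequently_iff (x : ℝ) :
    (∃ᶠ n in atTop, x ∈ F n) ↔ ∃ᶠ k in atTop, x ∈ UU (Vk k) k := by
  constructor
  · intro h
    by_contra hcon
    rw [not_frequently, eventually_atTop] at hcon
    obtain ⟨K, hK⟩ := hcon
    have hfin : {n | x ∈ F n}.Finite := by
      refine Set.Finite.subset (s := ⋃ k ∈ Finset.range K, range fun v : Vk k => per k v)
        ?_ ?_
      · exact Set.Finite.biUnion (Finset.finite_toSet _) fun k _ => Set.finite_range _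
      · rintro n ⟨k, v, h0, hn, hx⟩
        simp only [mem_iUnion]
        refine ⟨k, ?_, v, hn⟩
        rw [Finset.mem_range]
        by_contra hk
        push Not at hk
        refine hK k hk ?_
        simp only [UU, mem_iUnion]
        exact ⟨v, Finset.mem_erase.2 ⟨h0, Finset.mem_univ _⟩, hx⟩
    exact (Nat.frequently_atTop_iff_infinite.1 h) hfin
  · intro h
    rw [frequently_atTop] at h ⊢
    intro a
    obtain ⟨k, hk, hx⟩ := h a
    simp only [UU, mem_iUnion] at hx
    obtain ⟨v, hv, hx⟩ := hx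
    have := per_ge k v
    exact ⟨per k v, by omega, k, v, (Finset.mem_erase.1 hv).1, rfl, hx⟩

theorem null_small : volume {x : ℝ | ∃ᶠ k in atTop, x ∈ UU (Vk k) k ∩ Ico 0 (1 / 4)} = 0 := by
  have h1 : ∀ k, volume (UU (Vk k) k ∩ Ico 0 (1 / 4)) ≤ (2⁻¹ : ENNReal) ^ (k + 1) := by
    intro k
    have hfin : volume (ZZ (Vk k) k ∩ Ioc 0 1) ≠ ⊤ :=
      ((measure_mono inter_subset_right).trans_lt (by simp)).ne
    have h2 : P (ZZ (Vk k) k) = (2⁻¹ : ℝ) ^ (k + 1) := by
      have := P_ZZ (V := Vk k) k
      rw [card_Vk] at this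
      push_cast at this
      rw [inv_pow]
      exact eq_inv_of_mul_eq_one_left this
    rw [P_eq (measurableSet_ZZ k)] at h2
    have h3 : volume (ZZ (Vk k) k ∩ Ioc 0 1) = (2⁻¹ : ENNReal) ^ (k + 1) := by
      rw [← ENNReal.toReal_eq_toReal_iff' hfin (by simp), h2]
      simp
    rw [← h3]
    have h4 : UU (Vk k) k ∩ Ico 0 (1 / 4) ⊆ (ZZ (Vk k) k ∩ Ioc 0 1) ∪ {0} := by
      intro x hx
      rcases eq_or_ne x 0 with h | h
      · exact Or.inr h
      · refine Or.inl ⟨UU_small k hx, lt_of_le_of_ne hx.2.1 (Ne.symm h), ?_⟩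
        linarith [hx.2.2]
    calc volume (UU (Vk k) k ∩ Ico 0 (1 / 4))
        ≤ volume ((ZZ (Vk k) k ∩ Ioc 0 1) ∪ {0}) := measure_mono h4
      _ ≤ volume (ZZ (Vk k) k ∩ Ioc 0 1) + volume {(0 : ℝ)} := measure_union_le _ _
      _ = _ := by simp
  refine measure_setOfPred_frequently_eq_zero (p := fun k x => x ∈ UU (Vk k) k ∩ Ico 0 (1 / 4)) ?_
  refine ne_top_of_le_ne_top ?_ (ENNReal.tsum_le_tsum h1)
  simp only [pow_succ]
  rw [ENNReal.tsum_mul_right, ENNReal.tsum_geometric]
  simp

theorem pos_large : ENNReal.ofReal (1 / 32) ≤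
    volume ({x : ℝ | ∃ᶠ k in atTop, x ∈ UU (Vk k) k} ∩ Ioc 0 1) := by
  set G : ℕ → Set ℝ := fun K => (⋃ k ≥ K, UU (Vk k) k) ∩ Ioc 0 1 with hG
  have hGm : ∀ K, MeasurableSet (G K) := fun K =>
    (MeasurableSet.iUnion fun k => MeasurableSet.iUnion fun _ => measurableSet_UU k).inter
      measurableSet_Ioc
  have hanti : Antitone G := by
    intro K L hKL x hx
    refine ⟨?_, hx.2⟩
    have := hx.1
    simp only [mem_iUnion] at this ⊢
    obtain ⟨k, hk, h⟩ := this
    exact ⟨k, le_trans hKL hk, h⟩
  have hinter : {x : ℝ | ∃ᶠ k in atTop, x ∈ UU (Vk k) k} ∩ Ioc 0 1 = ⋂ K, G K := by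
    ext x
    simp only [hG, mem_inter_iff, mem_ofPred_eq, mem_iInter, mem_iUnion, frequently_atTop,
      exists_prop]
    constructor
    · rintro ⟨h1, h2⟩ K
      exact ⟨h1 K, h2⟩
    · intro h
      exact ⟨fun K => (h K).1, (h 0).2⟩
  have hfin : ∀ A : Set ℝ, volume (A ∩ Ioc 0 1) ≠ ⊤ := fun A =>
    ((measure_mono inter_subset_right).trans_lt (by simp)).ne
  have hlim := tendsto_measure_iInter_atTop (μ := volume) (s := G)
    (fun K => (hGm K).nullMeasurableSet) hanti ⟨0, hfin _⟩
  rw [hinter]
  refine ge_of_tendsto' hlim fun K => ?_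
  have h1 : P (UU (Vk K) K) ≤ (volume (G K)).toReal := by
    rw [P_eq (measurableSet_UU K)]
    refine ENNReal.toReal_mono (hfin _) (measure_mono ?_)
    refine inter_subset_inter_left _ ?_
    exact subset_iUnion₂_of_subset K le_rfl subset_rfl
  have h2 := P_UU (V := Vk K) K (by
    rw [card_Vk, pow_succ]
    have := Nat.one_le_two_pow (n := K)
    omega)
  show ENNReal.ofReal (1 / 32) ≤ volume (G K)
  rw [ENNReal.ofReal_le_iff_le_toReal (hfin _)]
  exact h2.trans h1

/-- There is a bounded sequence of measurable functions `f n` on the line, such that `f n` has period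
`1/n` for all `n ≥ 1`, whose upper limit is not constant almost everywhere. -/
theorem result : ∃ f : ℕ → ℝ → ℝ, (∀ n, Measurable (f n)) ∧ (∃ M : ℝ, ∀ n x, |f n x| ≤ M) ∧
    (∀ n : ℕ, 1 ≤ n → ∀ x : ℝ, f n (x + 1 / n) = f n x) ∧
    ¬ ∃ c : ℝ, ∀ᵐ x : ℝ, limsup (fun n => f n x) atTop = c := by
  classical
  have hbd : ∀ n x, |(F n).indicator (fun _ => (1 : ℝ)) x| ≤ 1 := by
    intro n x
    by_cases h : x ∈ F n
    · rw [indicator_of_mem h]; simp
    · rw [indicator_of_notMem h]; simp
  refine ⟨fun n => (F n).indicator fun _ => 1, fun n => measurable_const.indicator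
    (measurableSet_F n), ⟨1, hbd⟩, ?_, ?_⟩
  · intro n _ x
    by_cases h : x ∈ F n
    · simp only
      rw [indicator_of_mem h, indicator_of_mem ((F_periodic n x).2 h)]
    · simp only
      rw [indicator_of_notMem h, indicator_of_notMem (fun h' => h ((F_periodic n x).1 h'))]
  · rintro ⟨c, hc⟩
    have h0 : ∀ x, (¬ ∃ᶠ n in atTop, x ∈ F n) →
        limsup (fun n => (F n).indicator (fun _ => (1 : ℝ)) x) atTop = 0 := by
      intro x hx
      rw [not_frequently] at hx
      have : (fun n => (F n).indicator (fun _ => (1 : ℝ)) x) =ᶠ[atTop] fun _ => (0 : ℝ) := by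
        filter_upwards [hx] with n hn
        rw [indicator_of_notMem hn]
      rw [limsup_congr this, limsup_const]
    have h1 : ∀ x, (∃ᶠ n in atTop, x ∈ F n) →
        (1 : ℝ) ≤ limsup (fun n => (F n).indicator (fun _ => (1 : ℝ)) x) atTop := by
      intro x hx
      refine le_limsup_of_frequently_le ?_ ?_
      · refine hx.mono fun n hn => ?_
        rw [indicator_of_mem hn]
      · exact isBoundedUnder_of ⟨1, fun n => (abs_le.1 (hbd n x)).2⟩
    -- the constant vanishes
    have hc0 : c = 0 := by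
      have h2 : ∀ᵐ x : ℝ, ¬ ∃ᶠ k in atTop, x ∈ UU (Vk k) k ∩ Ico 0 (1 / 4) := by
        rw [ae_iff]
        simpa using null_small
      have h3 := hc.and h2
      have h4 : ∃ x ∈ Ico (0 : ℝ) (1 / 4),
          limsup (fun n => (F n).indicator (fun _ => (1 : ℝ)) x) atTop = c ∧
          ¬ ∃ᶠ k in atTop, x ∈ UU (Vk k) k ∩ Ico 0 (1 / 4) := by
        by_contra hcon
        push Not at hcon
        have h5 : Ico (0 : ℝ) (1 / 4) ⊆ {x | ¬ (limsup (fun n => (F n).indicator
            (fun _ => (1 : ℝ)) x) atTop = c ∧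
            ¬ ∃ᶠ k in atTop, x ∈ UU (Vk k) k ∩ Ico 0 (1 / 4))} := by
          intro x hx h6
          exact h6.2 (by simpa using hcon x hx h6.1)
        have h6 : volume (Ico (0 : ℝ) (1 / 4)) = 0 := measure_mono_null h5 (ae_iff.1 h3)
        simp at h6
      obtain ⟨x, hx, h5, h6⟩ := h4
      rw [← h5]
      apply h0
      rw [frequently_iff]
      intro h7
      exact h6 (h7.mono fun k hk => ⟨hk, hx⟩)
    have h2 : volume {x : ℝ | ∃ᶠ k in atTop, x ∈ UU (Vk k) k} = 0 := by
      refine measure_mono_null ?_ (ae_iff.1 hc)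
      intro x hx h3
      have h4 := h1 x ((frequently_iff x).2 hx)
      rw [h3, hc0] at h4
      linarith
    have h3 := pos_large.trans (measure_mono inter_subset_left)
    rw [h2] at h3
    simp at h3

end Pool.Agent.Results.MP_942486_an.LimsupNotConstant
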